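import Pool.Agent.Q220.Bng.Low

/-!
The critical number of choices of the bidirectional `k`-neighbour graph on `ℤ^d` is of the order
`√d`.
-/

set_option autoImplicit false

namespace Pool.Agent.Results.MP_8219fb_pr.OrderSqrt

open Pool.Agent.Q220.Bng

/-- `k_c(d) = min {k ∈ {1, ..., 2d} : θ^B(k, d) > 0}` -/
noncomputable def kc (d : ℕ) : ℕ := sInf {k : ℕ | 1 ≤ k ∧ ∃ hk : k ≤ 2 * d, 0 < theta d k hk}

/-- For every `d ≥ 30` the bidirectional `k`-neighbour graph on `ℤ^d` percolates for some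
`k ∈ {1, ..., 2d}` (so that `k_c(d)` is a minimum), and
`√(2 d) ≤ k_c(d) ≤ √(40 d) + 1`; hence `k_c(d) = Θ(√d)`. -/
theorem result (d : ℕ) (hd : 30 ≤ d) :
    (1 ≤ kc d ∧ ∃ hk : kc d ≤ 2 * d, 0 < theta d (kc d) hk) ∧
      √(2 * (d : ℝ)) ≤ kc d ∧ (kc d : ℝ) ≤ √(40 * (d : ℝ)) + 1 := by
  have hdR : (30 : ℝ) ≤ d := by exact_mod_cast hd
  have hs0 : 0 ≤ √(40 * (d : ℝ)) := Real.sqrt_nonneg _
  have hs2 : √(40 * (d : ℝ)) ^ 2 = 40 * d := Real.sq_sqrt (by positivity)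
  set K := ⌈√(40 * (d : ℝ))⌉₊ with hK
  have hK1 : √(40 * (d : ℝ)) ≤ K := Nat.le_ceil _
  have hK2 : (K : ℝ) < √(40 * (d : ℝ)) + 1 := Nat.ceil_lt_add_one hs0
  have hKd : 40 * d ≤ K ^ 2 := by
    have h1 : (40 : ℝ) * d ≤ K ^ 2 := by
      rw [← hs2]
      exact pow_le_pow_left₀ hs0 hK1 2
    exact_mod_cast h1
  have hK2d : K ≤ 2 * d := by
    have h1 : (K : ℝ) ≤ 2 * d := by
      have h2 : √(40 * (d : ℝ)) ≤ 2 * d - 1 := by
        rw [Real.sqrt_le_left (by linarith)]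
        nlinarith
      linarith
    exact_mod_cast h1
  have hmem : K ∈ {k : ℕ | 1 ≤ k ∧ ∃ hk : k ≤ 2 * d, 0 < theta d k hk} := by
    refine ⟨?_, hK2d, theta_pos hd hK2d hKd⟩
    by_contra h
    have h0 : K = 0 := by omega
    rw [h0] at hKd
    omega
  have hkc : 1 ≤ kc d ∧ ∃ hk : kc d ≤ 2 * d, 0 < theta d (kc d) hk := Nat.sInf_mem ⟨K, hmem⟩
  have hle : kc d ≤ K := Nat.sInf_le hmem
  refine ⟨hkc, ?_, ?_⟩
  · obtain ⟨h1, hk, hpos⟩ := hkc
    have h2 : 2 * d - 1 ≤ kc d * (kc d - 1) := by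
      by_contra hcon
      have h3 : theta d (kc d) hk = 0 := theta_zero hk (by omega)
      exact hpos.ne' h3
    have h1' : 1 ≤ kc d := h1
    have h4 : (2 * (d : ℝ) - 1) ≤ kc d * (kc d - 1) := by
      obtain ⟨M, hM⟩ : ∃ M, kc d = M + 1 := ⟨kc d - 1, by omega⟩
      rw [hM] at h2 ⊢
      rw [Nat.add_sub_cancel] at h2
      have h5 : 2 * d ≤ (M + 1) * M + 1 := by omega
      have h6 : ((2 * d : ℕ) : ℝ) ≤ (((M + 1) * M + 1 : ℕ) : ℝ) := by exact_mod_cast h5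
      push_cast at h6 ⊢
      linarith
    by_contra hcon
    push Not at hcon
    have h5 : √(2 * (d : ℝ)) ^ 2 = 2 * d := Real.sq_sqrt (by positivity)
    have h6 : (1 : ℝ) < √(2 * (d : ℝ)) := by
      rw [Real.lt_sqrt (by norm_num)]
      linarith
    have h7 : (1 : ℝ) ≤ kc d := by exact_mod_cast h1'
    nlinarith
  · have h1 : (kc d : ℝ) ≤ K := by exact_mod_cast hle
    linarith

end Pool.Agent.Results.MP_8219fb_pr.OrderSqrt
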